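import Pool.Agent.Helper70.EH.Main2

/-!
# The Kerner-Némethi inequality for complete intersections of any codimension with homothetic Newton diagrams

Let `f_1, ..., f_r` be a convenient Newton non-degenerate system of germs of functions in `N = n + r` variables such
that the Newton polyhedron of `f_i` is the one of `k_i V`, `k_i ≥ 1` integers, where `V` is a finite set of
exponents. Then

* `μ` of the complete intersection `f_1 = ... = f_r = 0` is `milnorH k V` (Khovanskii, Oka);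
* `p_g` is `genusH k V`, the alternating sum over the nonempty `J ⊆ {1, ..., r}` of the numbers of lattice points
  with positive coordinates which are not in the interior of the Newton polyhedron of `k_J V`,
  `k_J = ∑_{i ∈ J} k_i` (Khovanskii, Morales).

The theorem is the strict inequality `C_{n,r} p_g < μ`, `C_{n,r} = binom(n+r-1, n) (n+r)! / (S(n+r, r) r!)`, with
denominators cleared, for `n ≥ 3` and all `V` whose nonzero coordinates are at least `c`, in each of the cases

* `c ≥ 2 (n + r)` and `r ≤ 2`, all `k_i` (for `r = 2`, `n = 3` and `c < 20` left out);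
* `c ≥ 2 (n + r)`, `3 r < n` and `(n+r)^2 ∑_i (K - k_i)^(n+r-2) ≤ 4 K^(n+r-2)`, `K = ∑ k_i` (this holds for all large
  `n`, whatever the `k_i` are; if they are all equal and `r = 3, 4, 5`: `n ≥ 12, 21, 30`);
* `c ≥ (n + r)^2` and `4 ∑_i (K - k_i)^(n+r-2) ≤ K^(n+r-2)` (if the `k_i` are all equal and `r = 3, 4, 5`:
  `n ≥ 6, 8, 11`);
* the `k_i` are not all equal and `c` is at least an explicit number depending on `n` and the `k_i` only;
* more generally, `c ≥ n + r` and an explicit numerical inequality between `n`, the `k_i`, `c` and a parameter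
  `t < n + r` holds.

There is no hypothesis on the shape of the diagram.
-/

namespace Pool.Agent.Results.MP_20ee5e_ag.HomotheticDiagrams

open Pool.Agent.Helper70.KN Pool.Agent.Helper70.EQ Pool.Agent.Helper70.EH MeasureTheory Set

theorem result (n r : ℕ) (hn : 3 ≤ n) (hr : 1 ≤ r) (k : Fin r → ℕ) (hk : ∀ i, 1 ≤ k i)
    (V : Finset (Fin (n + r) → ℕ)) (hV : Convenient V)
    (h0 : (0 : Fin (n + r) → ℕ) ∉ V) (c : ℕ) (hc : ∀ v ∈ V, ∀ i, v i ≠ 0 → c ≤ v i)
    (h : 2 * (n + r) ≤ c ∧ (r = 1 ∨ r = 2 ∧ (n = 3 → 20 ≤ c) ∨ 3 * r < n ∧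
        (n + r) ^ 2 * ∑ i, (∑ j ∈ Finset.univ.erase i, k j) ^ (n + r - 2) ≤ 4 * (∑ j, k j) ^ (n + r - 2)) ∨
      (n + r) ^ 2 ≤ c ∧ 4 * ∑ i, (∑ j ∈ Finset.univ.erase i, k j) ^ (n + r - 2) ≤ (∑ j, k j) ^ (n + r - 2) ∨
      (∃ i j, k i ≠ k j) ∧ ((n : ℝ) + r) * (((n + r - 1).choose n : ℝ) * bk k (n + r - 1) +
        2 * ((r.factorial : ℝ) * (Nat.stirlingSecond (n + r) r : ℝ)) * wt k (n + r - 1)) ≤ c ∨
      n + r ≤ c ∧ ∃ t : ℕ, t < n + r ∧
        ((n : ℝ) + r) * ((n : ℝ) + r - 1) * (t : ℝ) ^ 2 * ((n + r - 1).choose n : ℝ) *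
            (ak k (n + r - 2) + bk k (n + r - 2)) <
        4 * (c : ℝ) * (4 * (c : ℝ) * ((r.factorial : ℝ) * (Nat.stirlingSecond (n + r) r : ℝ) * wt k (n + r) -
            ((n + r - 1).choose n : ℝ) * ak k (n + r)) +
          ((n : ℝ) + r) * ((n + r - 1).choose n : ℝ) *
            (((n : ℝ) + r + 1 + t) * ak k (n + r - 1) - ((n : ℝ) + r + 1 - t) * bk k (n + r - 1)) -
          4 * ((n : ℝ) + r) * ((r.factorial : ℝ) * (Nat.stirlingSecond (n + r) r : ℝ)) * wt k (n + r - 1))) :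
    (∀ j : ℕ, 1 ≤ j →
        {p : Fin (n + r) → ℕ | (∀ i, 0 < p i) ∧ (fun i => (p i : ℝ)) ∉ interior (newton (mult j V))}.Finite) ∧
      (∀ I : Finset (Fin (n + r)), volume {y : I → ℝ | extz I y ∈ under V} ≠ ⊤) ∧
      ((n + r - 1).choose n : ℝ) * ((n + r).factorial : ℝ) * genusH k V <
        (r.factorial : ℝ) * (Nat.stirlingSecond (n + r) r : ℝ) * milnorH k V :=
  main2 n r hn hr k hk V hV h0 c hc h

end Pool.Agent.Results.MP_20ee5e_ag.HomotheticDiagrams
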