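import Pool.Agent.Helper85.KN2.Main

/-!
# The Kerner-Némethi inequality for weighted homogeneous complete intersections

Let `X` be a weighted homogeneous isolated complete intersection singularity of dimension `n ≥ 3` in
`ℂ^(n+r)` with weights `w_j` and degrees `d_i`, such that every weight divides every degree. Then

* `p_g(X)` is the dimension of the part of degree `≤ ∑ d_i - ∑ w_j` of the coordinate ring, whose
  Hilbert series is `∏ (1 - t^(d_i)) / ∏ (1 - t^(w_j))`;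
* `μ(X) = (-1)^n (-1 + (∏ d_i / ∏ w_j) c)`, where `c` is the coefficient of `s^n` in
  `∏ (1 + w_j s) / ∏ (1 + d_i s)` (Greuel-Hamm).

The theorem is the inequality `C_{n,r} p_g ≤ μ` with denominators cleared,
`C_{n,r} = binom(n+r-1, n) (n+r)! / (S(n+r, r) r!)`.
-/

namespace Pool.Agent.Results.MP_20ee5e_ag.Multidegree

open PowerSeries

theorem result (n r : ℕ) (hn : 3 ≤ n) (hr : 1 ≤ r) (w : Fin (n + r) → ℕ) (d : Fin r → ℕ)
    (hw : ∀ j, 0 < w j) (hd : ∀ i, 0 < d i) (hwd : ∀ i j, w j ∣ d i) (pg μ : ℚ)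
    (hpg : pg = if ∑ j, w j ≤ ∑ i, d i then
      ∑ l ∈ Finset.range (∑ i, d i - ∑ j, w j + 1),
        coeff l ((∏ i, (1 - X ^ d i : PowerSeries ℚ)) * (∏ j, (1 - X ^ w j))⁻¹) else 0)
    (hμ : μ = (-1) ^ n * (-1 + (∏ i, (d i : ℚ)) / (∏ j, (w j : ℚ)) *
      coeff n ((∏ j, (1 + C (w j : ℚ) * X)) * (∏ i, (1 + C (d i : ℚ) * X))⁻¹))) :
    ((n + r - 1).choose n * (n + r).factorial : ℚ) * pg ≤
      r.factorial * Nat.stirlingSecond (n + r) r * μ :=
  Pool.Agent.Helper85.KN2.main n r hn hr w d hw hd hwd pg μ hpg hμ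

end Pool.Agent.Results.MP_20ee5e_ag.Multidegree
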