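import Pool.Agent.Helper65.KH.Asm

/-!
# Saito's inequality (n+1)! p_g < μ, n at least 3, if no vertex of the Newton diagram has a coordinate equal to 1

Let `f` be a convenient Newton non-degenerate germ of a function in `n + 1` variables with an isolated critical
point, `V` the set of the vertices of its Newton polyhedron. Then

* `μ(f)` is the Newton number of `V` (Kouchnirenko);
* `p_g(f)` is the number of lattice points with positive coordinates which are not in the interior of the
  Newton polyhedron (Khovanskii, Merle-Teissier, Saito).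

The theorem is the strict inequality `(n+1)! p_g < μ` for all `n ≥ 3`, if no vertex has a coordinate equal to `1`.
There is no other hypothesis on the diagram.
-/

namespace Pool.Agent.Results.MP_20ee5e_ag.NoCoordinateOne

open Pool.Agent.Helper70.KN MeasureTheory

theorem result (n : ℕ) (hn : 3 ≤ n) (V : Finset (Fin (n + 1) → ℕ)) (hV : Convenient V)
    (h0 : (0 : Fin (n + 1) → ℕ) ∉ V) (h : ∀ v ∈ V, ∀ i, v i ≠ 1) :
    {p : Fin (n + 1) → ℕ | (∀ i, 0 < p i) ∧ (fun i => (p i : ℝ)) ∉ interior (newton V)}.Finite ∧
      (∀ I : Finset (Fin (n + 1)), volume {y : I → ℝ | extz I y ∈ under V} ≠ ⊤) ∧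
      ((n + 1).factorial : ℝ) * genus V < newtonNumber V :=
  ⟨Pool.Agent.Helper65.KG.genus_finite V hV, Pool.Agent.Helper65.KG.vol_finite V hV,
    Pool.Agent.Helper65.KH.main (n + 1) (by omega) V hV h0 h⟩

end Pool.Agent.Results.MP_20ee5e_ag.NoCoordinateOne
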