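import Pool.Agent.Helper70.KN.Asm4

/-!
# Saito's inequality (n+1)! p_g < μ for Newton non-degenerate germs with small weights, n at least 3

Let `f` be a convenient Newton non-degenerate germ of a function in `n + 1` variables with an isolated critical
point, `V` a finite set of exponents which determines its Newton polyhedron. Then

* `μ(f)` is the Newton number of `V` (Kouchnirenko);
* `p_g(f)` is the number of lattice points with positive coordinates which are not in the interior of the
  Newton polyhedron (Khovanskii, Merle-Teissier, Saito).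

The theorem is the strict inequality `(n+1)! p_g < μ`, `n ≥ 3`, if all nonzero coordinates of all exponents
in `V` are at least `3n/4`, or if the weights of the facets of the Newton polyhedron are small in one of
three senses. There is no hypothesis on the shape of the diagram (the number of its facets, for example).
-/

namespace Pool.Agent.Results.MP_20ee5e_ag.SmallWeights

open Pool.Agent.Helper70.KN

theorem result (n : ℕ) (hn : 3 ≤ n) (V : Finset (Fin (n + 1) → ℕ)) (hV : Convenient V)
    (h0 : (0 : Fin (n + 1) → ℕ) ∉ V)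
    (h : (∀ v ∈ V, ∀ i, v i ≠ 0 → 3 * n ≤ 4 * v i) ∨
      ∃ L : Set (Fin (n + 1) → ℝ), CutBy V L ∧
        ((4 ≤ n ∧ ∀ w ∈ L, ∀ j, w j ≤ 4 / (3 * (n : ℝ))) ∨
          ((∀ w ∈ L, ∀ j, w j ≤ 2 / 5) ∧
            (n = 3 ∨ ∀ w ∈ L, ∀ i, ∑ j ∈ Finset.univ.erase i, w j ≤ 1)) ∨
          ∀ w ∈ L, ∀ i, ∑ j ∈ Finset.univ.erase i, w j ≤ 1 - 2 / ((n : ℝ) + 1))) :
    ((n + 1).factorial : ℝ) * genus V < newtonNumber V := by
  rcases h with h | ⟨L, hL, h | ⟨h1, h | h⟩ | h⟩
  · exact partD4 (by omega) V hV h0 fun v hv i hi => by
      rw [Nat.add_sub_cancel]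
      exact h v hv i hi
  · refine partD1 (by omega) V hV h0 L hL fun w hw j => ?_
    refine (h.2 w hw j).trans (le_of_eq ?_)
    push_cast
    rw [add_sub_cancel_right]
  · subst h
    exact partD2 V hV h0 L hL h1
  · exact partD3 (by omega) V hV h0 L hL h1 h
  · refine partA (by omega) V hV h0 L hL fun w hw i => ?_
    refine (h w hw i).trans (le_of_eq ?_)
    push_cast
    rfl

end Pool.Agent.Results.MP_20ee5e_ag.SmallWeights
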